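import Mathlib
import Pool.Agent.Y125.OC.Up
import Pool.Agent.Y125.OC.Rank

/-!
# Odd covers of `E(K_n) × E(K_n)`: the exact value for `n` equal to `3` modulo `4`

`gTilde n` is the least number of products of complete bipartite graphs in an odd cover of
`E(K_n) × E(K_n)`. For every `n` with `n % 4 = 3` its value is exactly `((n + 1) / 2) ^ 2`, and for
every `n` it lies between `⌊n / 2⌋ ^ 2` and `(⌊n / 2⌋ + 1) ^ 2`.
-/

set_option autoImplicit false

namespace Pool.Agent.Results.MP_cb2837_co.ThreeModFour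

open Pool.Agent.Helper157.OddCover Pool.Agent.Y125.OC

theorem result :
    (∀ n : ℕ, n % 4 = 3 → gTilde n = ((n + 1) / 2) ^ 2) ∧
      ∀ n : ℕ, (n / 2) ^ 2 ≤ gTilde n ∧ gTilde n ≤ (n / 2 + 1) ^ 2 := by
  refine ⟨fun n hn => ?_, fun n => ⟨lower_all n, upper n⟩⟩
  have h1 : (n + 1) / 2 = n / 2 + 1 := by omega
  rw [h1]
  exact le_antisymm (upper n) (lower3 hn)

end Pool.Agent.Results.MP_cb2837_co.ThreeModFour
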